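import Pool.Agent.MP_aee211_co.H55.Final

namespace Pool.Agent.Results.MP_aee211_co.Topological

open Pool.Agent.MP_aee211_co.H55
open Pool.Agent.MP_aee211_co.H75 (KConn HasTwoFactor)

/-- For every surface of Euler characteristic `χ`, `t = max 4 ⌊(5 + √(17 - 8χ)) / 2⌋`
(`17 - 8χ = 1 + 16 h` for `S_h` and `1 + 8 g` for `N_g`).  The surfaces are the topological spaces
obtained from a disc by gluing its sides according to the standard words, and embeddings are
drawings with points and simple arcs. -/
theorem result :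
    (∀ h : ℕ, IsLeast {k : ℕ | ∀ (V : Type) [Finite V] (G : SimpleGraph V),
        KConn G k → Embeds G (Surf (wordS h)) → HasTwoFactor G}
      (max 4 ((5 + Nat.sqrt (1 + 16 * h)) / 2))) ∧
    (∀ g : ℕ, 1 ≤ g → IsLeast {k : ℕ | ∀ (V : Type) [Finite V] (G : SimpleGraph V),
        KConn G k → Embeds G (Surf (wordN g)) → HasTwoFactor G}
      (max 4 ((5 + Nat.sqrt (1 + 8 * g)) / 2))) :=
  ⟨final_S, final_N⟩

end Pool.Agent.Results.MP_aee211_co.Topological
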